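import Pool.Agent.H511Z.SplitComp

set_option autoImplicit false

namespace Pool.Agent.Results.MP_59a3d4_lc.AHalting

open Pool.Agent.H511Z.Split

/-- Over every computable field there are decidable subspaces `V₁ ⊕ V₂ = V_∞` and a decidable
basis `B` of `V_∞` such that `B` has a good splitting, but in every good splitting neither part
is decidable. -/
theorem result (F : Type) [Field F] [Primcodable F] (hadd : Computable₂ fun a b : F => a + b)
    (_hmul : Computable₂ fun a b : F => a * b) :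
    ∃ (V₁ V₂ : Submodule F (ℕ →₀ F)) (B : Set (ℕ →₀ F)),
      IsCompl V₁ V₂ ∧ IsDec (V₁ : Set (ℕ →₀ F)) ∧ IsDec (V₂ : Set (ℕ →₀ F)) ∧
      LinearIndepOn F id B ∧ Submodule.span F B = ⊤ ∧ IsDec B ∧
      (∃ B₁ B₂, GoodSplitting V₁ V₂ B B₁ B₂) ∧
      ∀ B₁ B₂, GoodSplitting V₁ V₂ B B₁ B₂ → ¬ IsDec B₁ ∧ ¬ IsDec B₂ :=
  ⟨V1 hlt F, V2 hlt F, stdB F, isCompl12 hlt_mono, dec_V1 hadd, dec_V2 hadd, stdB_indep,
    stdB_span, dec_stdB, good_exists, fun _ _ => good_not_dec⟩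

end Pool.Agent.Results.MP_59a3d4_lc.AHalting
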